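import Mathlib
import Pool.Graph.R_seed8.Helper611.BS.PartD

set_option autoImplicit false

/-!
# The recursion step (MP_0f1375_an, `p = 2`)

`U = (x - b) R`, `g = U^(j+1)`, `h = R^(j)`: then `(x - b) h` has derivative `g - j h`, and
`∫ w g g'` is expressed through `∫ w (g - (j+1) h) (g' - (j+1) h')` and `∫ (j w - w' (x - b)) h h'`.
-/

namespace Pool.H72.NP

open MeasureTheory intervalIntegral

/-- relation between `g = U^(j+1)` and `h = R^(j)` when `U = (x - b) R` -/
def Rel (b : ℝ) (j : ℕ) (g h : ℝ → ℝ) : Prop :=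
  Continuous g ∧ Continuous h ∧
    ∀ x, HasDerivAt (fun x => (x - b) * h x) (g x - j * h x) x

lemma rel_at_b {b : ℝ} {j : ℕ} {g h : ℝ → ℝ} (H : Rel b j g h) : g b - j * h b = h b := by
  obtain ⟨_, hh, hd⟩ := H
  have h1 := hd b
  have h2 : HasDerivAt (fun x => (x - b) * h x) (h b) b := by
    rw [hasDerivAt_iff_tendsto_slope]
    have : Filter.Tendsto h (nhdsWithin b {b}ᶜ) (nhds (h b)) :=
      (hh.tendsto b).mono_left nhdsWithin_le_nhds
    refine this.congr' ?_
    filter_upwards [self_mem_nhdsWithin] with x hx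
    have hx' : x - b ≠ 0 := sub_ne_zero.2 hx
    rw [slope_def_field]
    field_simp
    ring
  exact h1.unique h2

/-- derivative of `(x - b) h h'` -/
lemma theta_deriv {b : ℝ} {j : ℕ} {g h g' h' : ℝ → ℝ} (H : Rel b j g h) (H' : Rel b j g' h')
    (x : ℝ) : HasDerivAt (fun x => (x - b) * h x * h' x)
      ((g x - j * h x) * h' x + h x * (g' x - j * h' x) - h x * h' x) x := by
  by_cases hx : x = b
  · subst hx
    rw [rel_at_b H, rel_at_b H']
    have e : h x * h' x + h x * h' x - h x * h' x = h x * h' x := by ring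
    rw [e, hasDerivAt_iff_tendsto_slope]
    have : Filter.Tendsto (fun y => h y * h' y) (nhdsWithin x {x}ᶜ) (nhds (h x * h' x)) :=
      ((H.2.1.mul H'.2.1).tendsto x).mono_left nhdsWithin_le_nhds
    refine this.congr' ?_
    filter_upwards [self_mem_nhdsWithin] with y hy
    have hx' : y - x ≠ 0 := sub_ne_zero.2 hy
    rw [slope_def_field]
    field_simp
    ring
  · have hx' : x - b ≠ 0 := sub_ne_zero.2 hx
    have h1 := H.2.2 x
    have h2 := H'.2.2 x
    have h3 : HasDerivAt (fun x : ℝ => x - b) 1 x := (hasDerivAt_id x).sub_const b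
    have h4 := (h1.mul h2).div h3 hx'
    have h5 : (fun x => (x - b) * h x * h' x) =ᶠ[nhds x]
        (((fun x => (x - b) * h x) * fun x => (x - b) * h' x) / fun x => x - b) := by
      have : ∀ᶠ y in nhds x, y ≠ b := isOpen_ne.mem_nhds hx
      filter_upwards [this] with y hy
      have hy' : y - b ≠ 0 := sub_ne_zero.2 hy
      simp only [Pi.mul_apply, Pi.div_apply]
      field_simp
    refine (h4.congr_of_eventuallyEq h5).congr_deriv ?_
    simp only [Pi.mul_apply]
    field_simp

/-- the recursion step -/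
lemma step {b : ℝ} {j : ℕ} {g h g' h' : ℝ → ℝ} (H : Rel b j g h) (H' : Rel b j g' h')
    (w : Polynomial ℝ) (p q : ℝ) :
    ∫ x in p..q, w.eval x * (g x * g' x) =
      (∫ x in p..q, w.eval x * ((g x - (j + 1) * h x) * (g' x - (j + 1) * h' x))) +
      (j + 1) * (∫ x in p..q, (j * w.eval x - w.derivative.eval x * (x - b)) * (h x * h' x)) +
      (j + 1) * (w.eval q * ((q - b) * h q * h' q) - w.eval p * ((p - b) * h p * h' p)) := by
  have cg := H.1
  have ch := H.2.1
  have cg' := H'.1
  have ch' := H'.2.1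
  have cw : Continuous fun x => w.eval x := w.continuous
  have cw' : Continuous fun x => w.derivative.eval x := w.derivative.continuous
  have hT : ∀ x, HasDerivAt (fun x => w.eval x * ((x - b) * h x * h' x))
      (w.derivative.eval x * ((x - b) * h x * h' x) + w.eval x *
        ((g x - j * h x) * h' x + h x * (g' x - j * h' x) - h x * h' x)) x := by
    intro x
    exact (w.hasDerivAt x).mul (theta_deriv H H' x)
  have hF := integral_eq_sub_of_hasDerivAt (a := p) (b := q) (fun x _ => hT x)
    ((by fun_prop : Continuous fun x => w.derivative.eval x * ((x - b) * h x * h' x) + w.eval x *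
        ((g x - j * h x) * h' x + h x * (g' x - j * h' x) - h x * h' x)).intervalIntegrable p q)
  rw [← hF]
  have i1 : IntervalIntegrable (fun x => w.eval x * ((g x - (j + 1) * h x) *
      (g' x - (j + 1) * h' x))) volume p q := (by fun_prop : Continuous fun x =>
        w.eval x * ((g x - (j + 1) * h x) * (g' x - (j + 1) * h' x))).intervalIntegrable p q
  have i2 : IntervalIntegrable (fun x => (j * w.eval x - w.derivative.eval x * (x - b)) *
      (h x * h' x)) volume p q := (by fun_prop : Continuous fun x =>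
        (j * w.eval x - w.derivative.eval x * (x - b)) * (h x * h' x)).intervalIntegrable p q
  have i3 : IntervalIntegrable (fun x => w.derivative.eval x * ((x - b) * h x * h' x) + w.eval x *
        ((g x - j * h x) * h' x + h x * (g' x - j * h' x) - h x * h' x)) volume p q :=
    (by fun_prop : Continuous fun x => w.derivative.eval x * ((x - b) * h x * h' x) + w.eval x *
        ((g x - j * h x) * h' x + h x * (g' x - j * h' x) - h x * h' x)).intervalIntegrable p q
  rw [← intervalIntegral.integral_const_mul, ← intervalIntegral.integral_const_mul,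
    ← intervalIntegral.integral_add i1 (i2.const_mul _),
    ← intervalIntegral.integral_add (i1.add (i2.const_mul _)) (i3.const_mul _)]
  apply intervalIntegral.integral_congr
  intro x _
  simp only
  ring

/-- sign of the derivative of a function monotone on `[-1,1]` -/
lemma mono_deriv {h : ℝ → ℝ} (hm : MonotoneOn h (Set.Icc (-1 : ℝ) 1)) {x c : ℝ}
    (hx : x ∈ Set.Ioo (-1 : ℝ) 1) (hd : HasDerivAt h c x) : 0 ≤ c := by
  rw [hasDerivAt_iff_tendsto_slope] at hd
  refine ge_of_tendsto hd ?_
  have h1 : Set.Icc (-1 : ℝ) 1 ∈ nhds x := Icc_mem_nhds hx.1 hx.2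
  filter_upwards [nhdsWithin_le_nhds h1, self_mem_nhdsWithin] with y hy hne
  rw [slope_def_field]
  have hxI : x ∈ Set.Icc (-1 : ℝ) 1 := ⟨hx.1.le, hx.2.le⟩
  rcases lt_or_gt_of_ne (show y ≠ x from hne) with h | h
  · have := hm hy hxI h.le
    exact div_nonneg_of_nonpos (by linarith) (by linarith)
  · have := hm hxI hy h.le
    exact div_nonneg (by linarith) (by linarith)

/-- `g - (j+1) h` has the sign of `x - b` when `h` is monotone -/
lemma r_sign {b : ℝ} {j : ℕ} {g h : ℝ → ℝ} (H : Rel b j g h)
    (hm : MonotoneOn h (Set.Icc (-1 : ℝ) 1)) {x : ℝ} (hx : x ∈ Set.Icc (-1 : ℝ) 1) :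
    0 ≤ (x - b) * (g x - (j + 1) * h x) := by
  have key : ∀ y ∈ Set.Ioo (-1 : ℝ) 1, 0 ≤ (y - b) * (g y - (j + 1) * h y) := by
    intro y hy
    by_cases hyb : y = b
    · subst hyb; simp
    have hy' : y - b ≠ 0 := sub_ne_zero.2 hyb
    have h1 := H.2.2 y
    have h3 : HasDerivAt (fun x : ℝ => x - b) 1 y := (hasDerivAt_id y).sub_const b
    have h4 := h1.div h3 hy'
    have h5 : h =ᶠ[nhds y] ((fun x => (x - b) * h x) / fun x => x - b) := by
      have : ∀ᶠ z in nhds y, z ≠ b := isOpen_ne.mem_nhds hyb
      filter_upwards [this] with z hz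
      have hz' : z - b ≠ 0 := sub_ne_zero.2 hz
      simp only [Pi.div_apply]
      field_simp
    have h6 := mono_deriv hm hy (h4.congr_of_eventuallyEq h5)
    have e : ((g y - j * h y) * (y - b) - (y - b) * h y * 1) / (y - b) ^ 2
        = (g y - (j + 1) * h y) / (y - b) := by
      field_simp
      ring
    rw [e] at h6
    have h7 : (y - b) * (g y - (j + 1) * h y) = (g y - (j + 1) * h y) / (y - b) * (y - b) ^ 2 := by
      field_simp
    rw [h7]
    positivity
  have hcl : IsClosed {y : ℝ | 0 ≤ (y - b) * (g y - (j + 1) * h y)} := by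
    have cg := H.1
    have ch := H.2.1
    exact isClosed_le continuous_const (by fun_prop)
  have h8 : closure (Set.Ioo (-1 : ℝ) 1) ⊆ {y : ℝ | 0 ≤ (y - b) * (g y - (j + 1) * h y)} :=
    hcl.closure_subset_iff.2 key
  rw [closure_Ioo (by norm_num)] at h8
  exact h8 hx

end Pool.H72.NP
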