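import Mathlib
import Pool.Graph.R_seed8.Helper611.BS.PartD
import Pool.Agent.H72.NP.Step

set_option autoImplicit false

/-!
# Stripping a node from functions in `Mon m`, and signs outside the hull of the nodes
-/

namespace Pool.H72.NP

open MeasureTheory intervalIntegral
open Pool.H611.BS (Mon mon_div)

/-- `U` vanishes on `S` -/
def Zer (S : Finset ℝ) (U : ℝ → ℝ) : Prop := ∀ z ∈ S, U z = 0

lemma leibniz (b : ℝ) (R : ℝ → ℝ) : ∀ (j : ℕ), ContDiff ℝ (j : WithTop ℕ∞) R → ∀ x,
    iteratedDeriv j (fun x => (x - b) * R x) x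
      = (x - b) * iteratedDeriv j R x + j * iteratedDeriv (j - 1) R x := by
  intro j
  induction j with
  | zero => intro _ x; simp
  | succ j ih =>
    intro hR x
    have hRj : ContDiff ℝ (j : WithTop ℕ∞) R := hR.of_le (by exact_mod_cast Nat.le_succ j)
    have e : iteratedDeriv j (fun x => (x - b) * R x) =
        fun x => (x - b) * iteratedDeriv j R x + j * iteratedDeriv (j - 1) R x := by
      funext y; exact ih hRj y
    rw [iteratedDeriv_succ, e]
    have hd : Differentiable ℝ (iteratedDeriv j R) :=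
      hR.differentiable_iteratedDeriv j (by exact_mod_cast Nat.lt_succ_self j)
    have h1 : HasDerivAt (iteratedDeriv j R) (iteratedDeriv (j + 1) R x) x := by
      rw [iteratedDeriv_succ]; exact (hd x).hasDerivAt
    have h2 : HasDerivAt (fun x : ℝ => x - b) 1 x := (hasDerivAt_id x).sub_const b
    have h3 : HasDerivAt (fun x => (j : ℝ) * iteratedDeriv (j - 1) R x)
        (j * iteratedDeriv j R x) x := by
      rcases Nat.eq_zero_or_pos j with hj | hj
      · subst hj; simpa using hasDerivAt_const x (0 : ℝ)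
      · obtain ⟨i, rfl⟩ : ∃ i, j = i + 1 := ⟨j - 1, by omega⟩
        have hd' : Differentiable ℝ (iteratedDeriv i R) :=
          hR.differentiable_iteratedDeriv i (by exact_mod_cast (by omega : i < i + 1 + 1))
        have : HasDerivAt (iteratedDeriv i R) (iteratedDeriv (i + 1) R x) x := by
          rw [iteratedDeriv_succ]; exact (hd' x).hasDerivAt
        simpa using this.const_mul ((i + 1 : ℕ) : ℝ)
    have h4 := (h2.mul h1).add h3
    have h5 : deriv (fun x => (x - b) * iteratedDeriv j R x + j * iteratedDeriv (j - 1) R x) x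
        = 1 * iteratedDeriv j R x + (x - b) * iteratedDeriv (j + 1) R x + j * iteratedDeriv j R x :=
      h4.deriv
    rw [h5]
    push_cast
    try simp only [Nat.add_sub_cancel]
    ring

/-- the relation for `U = (x - b) R` -/
lemma rel_of (b : ℝ) (j : ℕ) (U R : ℝ → ℝ) (hU : ContDiff ℝ ((j + 1 : ℕ) : WithTop ℕ∞) U)
    (hR : ContDiff ℝ (j : WithTop ℕ∞) R) (e : ∀ x, U x = (x - b) * R x) :
    Rel b j (iteratedDeriv (j + 1) U) (iteratedDeriv j R) := by
  refine ⟨hU.continuous_iteratedDeriv (j + 1) le_rfl, hR.continuous_iteratedDeriv j le_rfl, ?_⟩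
  intro x
  have eU : U = fun x => (x - b) * R x := funext e
  have h0 : ∀ y, (y - b) * iteratedDeriv j R y
      = iteratedDeriv j U y - j * iteratedDeriv (j - 1) R y := by
    intro y
    have := leibniz b R j hR y
    rw [← eU] at this
    linarith
  have hd : Differentiable ℝ (iteratedDeriv j U) :=
    hU.differentiable_iteratedDeriv j (by exact_mod_cast Nat.lt_succ_self j)
  have h1 : HasDerivAt (iteratedDeriv j U) (iteratedDeriv (j + 1) U x) x := by
    rw [iteratedDeriv_succ]; exact (hd x).hasDerivAt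
  have h3 : HasDerivAt (fun x => (j : ℝ) * iteratedDeriv (j - 1) R x)
      (j * iteratedDeriv j R x) x := by
    rcases Nat.eq_zero_or_pos j with hj | hj
    · subst hj; simpa using hasDerivAt_const x (0 : ℝ)
    · obtain ⟨i, rfl⟩ : ∃ i, j = i + 1 := ⟨j - 1, by omega⟩
      have hd' : Differentiable ℝ (iteratedDeriv i R) :=
        hR.differentiable_iteratedDeriv i (by exact_mod_cast (by omega : i < i + 1))
      have : HasDerivAt (iteratedDeriv i R) (iteratedDeriv (i + 1) R x) x := by
        rw [iteratedDeriv_succ]; exact (hd' x).hasDerivAt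
      simpa using this.const_mul ((i + 1 : ℕ) : ℝ)
  have h4 := h1.sub h3
  exact h4.congr_of_eventuallyEq (Filter.Eventually.of_forall (fun y => by
    simpa using h0 y))

/-- stripping a node -/
lemma strip {m : ℕ} {S : Finset ℝ} {U : ℝ → ℝ} (hU : Mon (m + 1) U) (hz : Zer S U)
    (hS : ∀ z ∈ S, z ∈ Set.Icc (-1 : ℝ) 1) {b : ℝ} (hb : b ∈ S) :
    ∃ R, Mon m R ∧ Zer (S.erase b) R ∧ ∀ x, U x = (x - b) * R x := by
  obtain ⟨R, hR, e⟩ := mon_div m U hU b (hS b hb) (hz b hb)
  refine ⟨R, hR, ?_, e⟩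
  intro z hzS
  obtain ⟨h1, h2⟩ := Finset.mem_erase.1 hzS
  have := hz z h2
  rw [e] at this
  rcases mul_eq_zero.1 this with h | h
  · exact absurd (sub_eq_zero.1 h) h1
  · exact h

/-- signs to the right of the nodes -/
lemma sign_right : ∀ (m : ℕ) (S : Finset ℝ) (U : ℝ → ℝ), S.card = m + 1 → Mon m U → Zer S U →
    (∀ z ∈ S, z ∈ Set.Icc (-1 : ℝ) 1) → ∀ j ≤ m, ∀ x ∈ Set.Icc (-1 : ℝ) 1, (∀ z ∈ S, z ≤ x) →
    0 ≤ iteratedDeriv j U x := by
  intro m
  induction m with
  | zero =>
    intro S U hc hU hz hS j hj x hx hSx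
    obtain rfl : j = 0 := by omega
    obtain ⟨z, rfl⟩ := Finset.card_eq_one.1 hc
    have h1 := hU.2 (hS z (by simp)) hx (hSx z (by simp))
    rw [iteratedDeriv_zero] at h1 ⊢
    rw [hz z (by simp)] at h1
    exact h1
  | succ m ih =>
    intro S U hc hU hz hS j hj x hx hSx
    have hne : S.Nonempty := Finset.card_pos.1 (by omega)
    obtain ⟨b, hb⟩ := hne
    obtain ⟨R, hR, hzR, e⟩ := strip hU hz hS hb
    have hc' : (S.erase b).card = m + 1 := by rw [Finset.card_erase_of_mem hb]; omega
    have hS' : ∀ z ∈ S.erase b, z ∈ Set.Icc (-1 : ℝ) 1 := fun z hz => hS z (Finset.mem_of_mem_erase hz)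
    have hSx' : ∀ z ∈ S.erase b, z ≤ x := fun z hz => hSx z (Finset.mem_of_mem_erase hz)
    have hbx : 0 ≤ x - b := sub_nonneg.2 (hSx b hb)
    have I := ih (S.erase b) R hc' hR hzR hS'
    rcases Nat.lt_or_ge m j with hj' | hj'
    · obtain rfl : j = m + 1 := by omega
      have H := rel_of b m U R hU.1 hR.1 e
      have hs := r_sign H hR.2 hx
      have hh : 0 ≤ iteratedDeriv m R x := I m le_rfl x hx hSx'
      rcases hbx.eq_or_lt with h0 | h0
      · have hxb : x = b := by linarith
        have := rel_at_b H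
        rw [← hxb] at this
        have : iteratedDeriv (m + 1) U x = (m + 1) * iteratedDeriv m R x := by linarith
        rw [this]; positivity
      · have h1 : 0 ≤ iteratedDeriv (m + 1) U x - (m + 1) * iteratedDeriv m R x :=
          nonneg_of_mul_nonneg_right (by simpa [mul_comm] using hs) h0
        have : 0 ≤ ((m : ℝ) + 1) * iteratedDeriv m R x := by positivity
        linarith
    · have hRj : ContDiff ℝ (j : WithTop ℕ∞) R := hR.1.of_le (by exact_mod_cast hj')
      have h1 := leibniz b R j hRj x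
      rw [← (funext e : U = fun x => (x - b) * R x)] at h1
      rw [h1]
      have h2 := I j hj' x hx hSx'
      have h3 := I (j - 1) (by omega) x hx hSx'
      positivity

/-- signs to the left of the nodes -/
lemma sign_left : ∀ (m : ℕ) (S : Finset ℝ) (U : ℝ → ℝ), S.card = m + 1 → Mon m U → Zer S U →
    (∀ z ∈ S, z ∈ Set.Icc (-1 : ℝ) 1) → ∀ j e : ℕ, j + e = m + 1 → 1 ≤ e →
    ∀ x ∈ Set.Icc (-1 : ℝ) 1, (∀ z ∈ S, x ≤ z) → 0 ≤ (-1 : ℝ) ^ e * iteratedDeriv j U x := by
  intro m
  induction m with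
  | zero =>
    intro S U hc hU hz hS j e hje he x hx hSx
    obtain rfl : j = 0 := by omega
    obtain rfl : e = 1 := by omega
    obtain ⟨z, rfl⟩ := Finset.card_eq_one.1 hc
    have h1 := hU.2 hx (hS z (by simp)) (hSx z (by simp))
    rw [iteratedDeriv_zero] at h1 ⊢
    rw [hz z (by simp)] at h1
    linarith
  | succ m ih =>
    intro S U hc hU hz hS j e hje he x hx hSx
    have hne : S.Nonempty := Finset.card_pos.1 (by omega)
    obtain ⟨b, hb⟩ := hne
    obtain ⟨R, hR, hzR, eq⟩ := strip hU hz hS hb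
    have hc' : (S.erase b).card = m + 1 := by rw [Finset.card_erase_of_mem hb]; omega
    have hS' : ∀ z ∈ S.erase b, z ∈ Set.Icc (-1 : ℝ) 1 := fun z hz => hS z (Finset.mem_of_mem_erase hz)
    have hSx' : ∀ z ∈ S.erase b, x ≤ z := fun z hz => hSx z (Finset.mem_of_mem_erase hz)
    have hbx : x - b ≤ 0 := sub_nonpos.2 (hSx b hb)
    have I := ih (S.erase b) R hc' hR hzR hS'
    rcases Nat.lt_or_ge m j with hj' | hj'
    · obtain rfl : j = m + 1 := by omega
      obtain rfl : e = 1 := by omega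
      have H := rel_of b m U R hU.1 hR.1 eq
      have hs := r_sign H hR.2 hx
      have hh : 0 ≤ (-1 : ℝ) ^ 1 * iteratedDeriv m R x := I m 1 (by omega) le_rfl x hx hSx'
      have hh' : iteratedDeriv m R x ≤ 0 := by linarith
      have h5 : ((m : ℝ) + 1) * iteratedDeriv m R x ≤ 0 :=
        mul_nonpos_of_nonneg_of_nonpos (by positivity) hh'
      rcases hbx.eq_or_lt with h0 | h0
      · have hxb : x = b := by linarith
        have := rel_at_b H
        rw [← hxb] at this
        have : iteratedDeriv (m + 1) U x = (m + 1) * iteratedDeriv m R x := by linarith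
        rw [this]; linarith
      · have h1 : iteratedDeriv (m + 1) U x - (m + 1) * iteratedDeriv m R x ≤ 0 := by
          by_contra hcon
          push Not at hcon
          have := mul_neg_of_neg_of_pos h0 hcon
          linarith
        linarith
    · have hRj : ContDiff ℝ (j : WithTop ℕ∞) R := hR.1.of_le (by exact_mod_cast hj')
      have h1 := leibniz b R j hRj x
      rw [← (funext eq : U = fun x => (x - b) * R x)] at h1
      rw [h1]
      obtain ⟨e', rfl⟩ : ∃ e', e = e' + 1 := ⟨e - 1, by omega⟩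
      have h2 := I j e' (by omega) (by omega) x hx hSx'
      have h4 : 0 ≤ (b - x) * ((-1 : ℝ) ^ e' * iteratedDeriv j R x) :=
        mul_nonneg (by linarith) h2
      rcases Nat.eq_zero_or_pos j with hj0 | hj0
      · subst hj0
        simp only [Nat.cast_zero, zero_mul, add_zero]
        calc (0:ℝ) ≤ _ := h4
          _ = _ := by ring
      · have h3 := I (j - 1) (e' + 1) (by omega) (by omega) x hx hSx'
        have h5 : 0 ≤ (j : ℝ) * ((-1 : ℝ) ^ (e' + 1) * iteratedDeriv (j - 1) R x) :=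
          mul_nonneg (by positivity) h3
        calc (0:ℝ) ≤ (b - x) * ((-1 : ℝ) ^ e' * iteratedDeriv j R x)
              + (j : ℝ) * ((-1 : ℝ) ^ (e' + 1) * iteratedDeriv (j - 1) R x) := add_nonneg h4 h5
          _ = _ := by ring

/-- products to the left -/
lemma prod_left {m : ℕ} {S : Finset ℝ} {U V : ℝ → ℝ} (hc : S.card = m + 1) (hU : Mon m U)
    (hV : Mon m V) (hzU : Zer S U) (hzV : Zer S V) (hS : ∀ z ∈ S, z ∈ Set.Icc (-1 : ℝ) 1)
    {j : ℕ} (hj : j ≤ m) {x : ℝ} (hx : x ∈ Set.Icc (-1 : ℝ) 1) (hSx : ∀ z ∈ S, x ≤ z) :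
    0 ≤ iteratedDeriv j U x * iteratedDeriv j V x := by
  have h1 := sign_left m S U hc hU hzU hS j (m + 1 - j) (by omega) (by omega) x hx hSx
  have h2 := sign_left m S V hc hV hzV hS j (m + 1 - j) (by omega) (by omega) x hx hSx
  have h3 := mul_nonneg h1 h2
  have h4 : (-1 : ℝ) ^ (m + 1 - j) * (-1 : ℝ) ^ (m + 1 - j) = 1 := by
    rw [← mul_pow]; norm_num
  calc (0:ℝ) ≤ _ := h3
    _ = ((-1 : ℝ) ^ (m + 1 - j) * (-1 : ℝ) ^ (m + 1 - j)) *
        (iteratedDeriv j U x * iteratedDeriv j V x) := by ring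
    _ = _ := by rw [h4, one_mul]

/-- products to the right -/
lemma prod_right {m : ℕ} {S : Finset ℝ} {U V : ℝ → ℝ} (hc : S.card = m + 1) (hU : Mon m U)
    (hV : Mon m V) (hzU : Zer S U) (hzV : Zer S V) (hS : ∀ z ∈ S, z ∈ Set.Icc (-1 : ℝ) 1)
    {j : ℕ} (hj : j ≤ m) {x : ℝ} (hx : x ∈ Set.Icc (-1 : ℝ) 1) (hSx : ∀ z ∈ S, z ≤ x) :
    0 ≤ iteratedDeriv j U x * iteratedDeriv j V x :=
  mul_nonneg (sign_right m S U hc hU hzU hS j hj x hx hSx)
    (sign_right m S V hc hV hzV hS j hj x hx hSx)

end Pool.H72.NP
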