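import Mathlib
import Pool.Agent.H72.NP.Strip

set_option autoImplicit false

/-!
# Positivity of `∫ w U^(j) V^(j)` for functions with `j + 1`, `j + 2`, `j + 3` common zeros
-/

namespace Pool.H72.NP

open MeasureTheory intervalIntegral Polynomial
open Pool.H611.BS (Mon mon_div)

lemma mon_cont {m : ℕ} {U : ℝ → ℝ} (hU : Mon m U) {j : ℕ} (hj : j ≤ m) :
    Continuous (iteratedDeriv j U) :=
  hU.1.continuous_iteratedDeriv j (by exact_mod_cast hj)

lemma der_mul_lin (w : ℝ[X]) (b : ℝ) : ∀ i : ℕ,
    derivative^[i] (w * (X - C b)) = derivative^[i] w * (X - C b)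
      + (i : ℝ[X]) * derivative^[i - 1] w := by
  intro i
  induction i with
  | zero => simp
  | succ i ih =>
    rw [Function.iterate_succ_apply', ih, Function.iterate_succ_apply']
    rcases Nat.eq_zero_or_pos i with h | h
    · subst h; simp
    · obtain ⟨k, rfl⟩ : ∃ k, i = k + 1 := ⟨i - 1, by omega⟩
      simp only [Nat.add_sub_cancel, derivative_add, derivative_mul, derivative_X_sub_C, mul_one,
        derivative_natCast, zero_mul, zero_add, Nat.cast_add, Nat.cast_one, derivative_one,
        add_zero]
      rw [← Function.iterate_succ_apply' derivative k w]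
      ring

/-- one derivative of the polar weight -/
lemma der_polar (w : ℝ[X]) (b : ℝ) (j i : ℕ) :
    derivative^[i] (C (j : ℝ) * w - derivative w * (X - C b)) =
      C ((j : ℝ) - i) * derivative^[i] w - derivative^[i + 1] w * (X - C b) := by
  rw [iterate_derivative_sub, iterate_derivative_C_mul, der_mul_lin]
  rcases Nat.eq_zero_or_pos i with h | h
  · subst h; simp
  · obtain ⟨k, rfl⟩ : ∃ k, i = k + 1 := ⟨i - 1, by omega⟩
    have e1 : derivative^[k + 1] (derivative w) = derivative^[k + 1 + 1] w := by
      rw [← Function.iterate_succ_apply]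
    have e2 : derivative^[k + 1 - 1] (derivative w) = derivative^[k + 1] w := by
      rw [Nat.add_sub_cancel, ← Function.iterate_succ_apply]
    rw [e1, e2, map_sub]
    simp only [map_natCast]
    ring

/-- `δ = 1` -/
lemma delta1 : ∀ (j : ℕ) (w : ℝ[X]) (p q : ℝ) (S : Finset ℝ) (U V : ℝ → ℝ),
    -1 ≤ p → p ≤ q → q ≤ 1 → S.card = j + 1 → (∀ z ∈ S, z ∈ Set.Icc p q) →
    Mon j U → Mon j V → Zer S U → Zer S V →
    (∀ i ≤ j, ∀ x ∈ Set.Icc p q, 0 ≤ (derivative^[i] w).eval x) →
    0 ≤ ∫ x in p..q, w.eval x * (iteratedDeriv j U x * iteratedDeriv j V x) := by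
  intro j
  induction j with
  | zero =>
    intro w p q S U V hp hpq hq hc hS hU hV hzU hzV hw
    apply intervalIntegral.integral_nonneg hpq
    intro x hx
    have hx1 : x ∈ Set.Icc (-1 : ℝ) 1 := ⟨by linarith [hx.1], by linarith [hx.2]⟩
    have hS1 : ∀ z ∈ S, z ∈ Set.Icc (-1 : ℝ) 1 := fun z hz =>
      ⟨by linarith [(hS z hz).1], by linarith [(hS z hz).2]⟩
    apply mul_nonneg (by simpa using hw 0 le_rfl x hx)
    obtain ⟨z, hSz⟩ := Finset.card_eq_one.1 hc
    rcases le_total x z with h | h
    · exact prod_left hc hU hV hzU hzV hS1 le_rfl hx1 (by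
        intro y hy; rw [hSz, Finset.mem_singleton] at hy; rw [hy]; exact h)
    · exact prod_right hc hU hV hzU hzV hS1 le_rfl hx1 (by
        intro y hy; rw [hSz, Finset.mem_singleton] at hy; rw [hy]; exact h)
  | succ j ih =>
    intro w p q S U V hp hpq hq hc hS hU hV hzU hzV hw
    have hne : S.Nonempty := Finset.card_pos.1 (by omega)
    set b := S.max' hne with hbdef
    have hb : b ∈ S := S.max'_mem hne
    have hbm : ∀ z ∈ S, z ≤ b := fun z hz => S.le_max' z hz
    have hS1 : ∀ z ∈ S, z ∈ Set.Icc (-1 : ℝ) 1 := fun z hz =>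
      ⟨by linarith [(hS z hz).1], by linarith [(hS z hz).2]⟩
    have hpb : p ≤ b := (hS b hb).1
    have hbq : b ≤ q := (hS b hb).2
    have cU := mon_cont hU (le_refl (j + 1))
    have cV := mon_cont hV (le_refl (j + 1))
    have cw : Continuous fun x => w.eval x := w.continuous
    have cc : Continuous fun x => w.eval x * (iteratedDeriv (j + 1) U x * iteratedDeriv (j + 1) V x) := by
      fun_prop
    rw [← intervalIntegral.integral_add_adjacent_intervals (cc.intervalIntegrable p b)
      (cc.intervalIntegrable b q)]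
    have h2 : 0 ≤ ∫ x in b..q, w.eval x * (iteratedDeriv (j + 1) U x * iteratedDeriv (j + 1) V x) := by
      apply intervalIntegral.integral_nonneg hbq
      intro x hx
      apply mul_nonneg
      · simpa using hw 0 (by omega) x ⟨by linarith [hx.1], hx.2⟩
      · exact prod_right hc hU hV hzU hzV hS1 le_rfl ⟨by linarith [hx.1], by linarith [hx.2]⟩
          (fun z hz => (hbm z hz).trans hx.1)
    refine add_nonneg ?_ h2
    obtain ⟨R, hR, hzR, eR⟩ := strip hU hzU hS1 hb
    obtain ⟨T, hT, hzT, eT⟩ := strip hV hzV hS1 hb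
    have H := rel_of b j U R hU.1 hR.1 eR
    have H' := rel_of b j V T hV.1 hT.1 eT
    have hc' : (S.erase b).card = j + 1 := by rw [Finset.card_erase_of_mem hb]; omega
    have hS' : ∀ z ∈ S.erase b, z ∈ Set.Icc p b := fun z hz =>
      ⟨(hS z (Finset.mem_of_mem_erase hz)).1, hbm z (Finset.mem_of_mem_erase hz)⟩
    have hS1' : ∀ z ∈ S.erase b, z ∈ Set.Icc (-1 : ℝ) 1 := fun z hz =>
      hS1 z (Finset.mem_of_mem_erase hz)
    rw [step H H' w p b]
    have t1 : 0 ≤ ∫ x in p..b, w.eval x *
        ((iteratedDeriv (j + 1) U x - (j + 1) * iteratedDeriv j R x) *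
          (iteratedDeriv (j + 1) V x - (j + 1) * iteratedDeriv j T x)) := by
      apply intervalIntegral.integral_nonneg hpb
      intro x hx
      have hx1 : x ∈ Set.Icc (-1 : ℝ) 1 := ⟨by linarith [hx.1], by linarith [hx.2]⟩
      apply mul_nonneg
      · simpa using hw 0 (by omega) x ⟨hx.1, by linarith [hx.2]⟩
      · rcases hx.2.eq_or_lt with h0 | h0
        · have e1 := rel_at_b H
          have e2 := rel_at_b H'
          rw [h0]
          have e3 : iteratedDeriv (j + 1) U b - (j + 1) * iteratedDeriv j R b = 0 := by linarith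
          rw [e3, zero_mul]
        · have s1 := r_sign H hR.2 hx1
          have s2 := r_sign H' hT.2 hx1
          have h3 : x - b < 0 := by linarith
          have s3 : iteratedDeriv (j + 1) U x - (j + 1) * iteratedDeriv j R x ≤ 0 := by
            by_contra hcon
            push Not at hcon
            have := mul_neg_of_neg_of_pos h3 hcon
            linarith
          have s4 : iteratedDeriv (j + 1) V x - (j + 1) * iteratedDeriv j T x ≤ 0 := by
            by_contra hcon
            push Not at hcon
            have := mul_neg_of_neg_of_pos h3 hcon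
            linarith
          exact mul_nonneg_of_nonpos_of_nonpos s3 s4
    have hw' : ∀ i ≤ j, ∀ x ∈ Set.Icc p b,
        0 ≤ (derivative^[i] (C (j : ℝ) * w - derivative w * (X - C b))).eval x := by
      intro i hi x hx
      rw [der_polar]
      have a1 := hw i (by omega) x ⟨hx.1, by linarith [hx.2]⟩
      have a2 := hw (i + 1) (by omega) x ⟨hx.1, by linarith [hx.2]⟩
      simp only [eval_sub, eval_mul, eval_C, eval_X]
      have a3 : (0 : ℝ) ≤ (j : ℝ) - i := sub_nonneg.2 (by exact_mod_cast hi)
      have a4 : 0 ≤ b - x := sub_nonneg.2 hx.2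
      have a5 := mul_nonneg a3 a1
      have a6 := mul_nonneg a2 a4
      linarith
    have t2 := ih (C (j : ℝ) * w - derivative w * (X - C b)) p b (S.erase b) R T hp hpb
      (by linarith) hc' hS' hR hT hzR hzT hw'
    simp only [eval_sub, eval_mul, eval_C, eval_X] at t2
    have t3 : 0 ≤ w.eval b * ((b - b) * iteratedDeriv j R b * iteratedDeriv j T b) -
        w.eval p * ((p - b) * iteratedDeriv j R p * iteratedDeriv j T p) := by
      have a1 : 0 ≤ w.eval p := by simpa using hw 0 (by omega) p ⟨le_rfl, hpq⟩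
      have a2 : 0 ≤ iteratedDeriv j R p * iteratedDeriv j T p :=
        prod_left hc' hR hT hzR hzT hS1' le_rfl ⟨hp, by linarith⟩ (fun z hz => (hS' z hz).1)
      have a3 : 0 ≤ b - p := sub_nonneg.2 hpb
      have a4 := mul_nonneg a1 (mul_nonneg a3 a2)
      calc (0:ℝ) ≤ _ := a4
        _ = _ := by ring
    have t4 : 0 ≤ ((j : ℝ) + 1) * ∫ x in p..b, (j * w.eval x - w.derivative.eval x * (x - b)) *
        (iteratedDeriv j R x * iteratedDeriv j T x) := mul_nonneg (by positivity) t2
    have t5 := mul_nonneg (by positivity : (0 : ℝ) ≤ (j : ℝ) + 1) t3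
    linarith

/-- all Taylor coefficients at `p` are nonnegative -/
def NN (w : ℝ[X]) (p : ℝ) : Prop := ∀ i, 0 ≤ (derivative^[i] w).eval p

lemma NN.mono {w : ℝ[X]} {p x : ℝ} (h : NN w p) (hx : p ≤ x) : NN w x := by
  intro i
  have key : ∀ v : ℝ[X], NN v p → 0 ≤ v.eval x := by
    intro v hv
    have e := congrArg (fun f : ℝ[X] => f.eval (x - p)) (rfl : taylor p v = taylor p v)
    have h1 : v.eval x = (taylor p v).eval (x - p) := by
      rw [taylor_eval]; congr 1; ring
    rw [h1, eval_eq_sum_range]
    apply Finset.sum_nonneg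
    intro k _
    apply mul_nonneg _ (pow_nonneg (by linarith) _)
    rw [taylor_coeff]
    have h2 := hv k
    have h3 : (derivative^[k] v).eval p = (k.factorial : ℝ) * (hasseDeriv k v).eval p := by
      have := congrArg (fun f : ℝ[X] => f.eval p) (congrFun (factorial_smul_hasseDeriv (R := ℝ) k) v)
      simp only [LinearMap.smul_apply, Pi.smul_apply] at this
      rw [← this]
      simp [eval_smul]
    rw [h3] at h2
    exact nonneg_of_mul_nonneg_right (by rw [mul_comm] at h2; simpa [mul_comm] using h2)
      (by exact_mod_cast Nat.factorial_pos k)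
  apply key
  intro k
  have := h (k + i)
  rwa [Function.iterate_add_apply] at this

lemma NN.lin {w : ℝ[X]} {b : ℝ} (h : NN w b) : NN (w * (X - C b)) b := by
  intro i
  rw [der_mul_lin]
  simp only [eval_add, eval_mul, eval_sub, eval_X, eval_C, sub_self, mul_zero, zero_add,
    eval_natCast]
  exact mul_nonneg (by positivity) (h (i - 1))

end Pool.H72.NP
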