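import Mathlib
import Pool.Agent.H72.NP.Delta

set_option autoImplicit false

/-!
# `δ = 2` and `δ = 3`
-/

namespace Pool.H72.NP

open MeasureTheory intervalIntegral Polynomial
open Pool.H611.BS (Mon mon_div)

/-- data of a pair of functions with common zeros -/
structure Pair (m : ℕ) (S : Finset ℝ) (U V : ℝ → ℝ) : Prop where
  card : S.card = m + 1
  MU : Mon m U
  MV : Mon m V
  zU : Zer S U
  zV : Zer S V
  sub : ∀ z ∈ S, z ∈ Set.Icc (-1 : ℝ) 1

/-- the product of the `j`-th derivatives -/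
noncomputable def PP (j : ℕ) (U V : ℝ → ℝ) (x : ℝ) : ℝ := iteratedDeriv j U x * iteratedDeriv j V x

lemma Pair.cont {m : ℕ} {S : Finset ℝ} {U V : ℝ → ℝ} (h : Pair m S U V) {j : ℕ} (hj : j ≤ m) :
    Continuous (PP j U V) := (mon_cont h.MU hj).mul (mon_cont h.MV hj)

lemma Pair.left {m : ℕ} {S : Finset ℝ} {U V : ℝ → ℝ} (h : Pair m S U V) {j : ℕ} (hj : j ≤ m)
    {x : ℝ} (hx : x ∈ Set.Icc (-1 : ℝ) 1) (hSx : ∀ z ∈ S, x ≤ z) : 0 ≤ PP j U V x :=
  prod_left h.card h.MU h.MV h.zU h.zV h.sub hj hx hSx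

lemma Pair.right {m : ℕ} {S : Finset ℝ} {U V : ℝ → ℝ} (h : Pair m S U V) {j : ℕ} (hj : j ≤ m)
    {x : ℝ} (hx : x ∈ Set.Icc (-1 : ℝ) 1) (hSx : ∀ z ∈ S, z ≤ x) : 0 ≤ PP j U V x :=
  prod_right h.card h.MU h.MV h.zU h.zV h.sub hj hx hSx

/-- stripping a node from a pair -/
lemma Pair.strip {m : ℕ} {S : Finset ℝ} {U V : ℝ → ℝ} (h : Pair (m + 1) S U V) {b : ℝ}
    (hb : b ∈ S) : ∃ R T, Pair m (S.erase b) R T ∧ (∀ x, U x = (x - b) * R x) ∧
      ∀ x, V x = (x - b) * T x := by
  obtain ⟨R, hR, hzR, eR⟩ := Pool.H72.NP.strip h.MU h.zU h.sub hb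
  obtain ⟨T, hT, hzT, eT⟩ := Pool.H72.NP.strip h.MV h.zV h.sub hb
  refine ⟨R, T, ⟨?_, hR, hT, hzR, hzT, fun z hz => h.sub z (Finset.mem_of_mem_erase hz)⟩, eR, eT⟩
  have := h.card
  rw [Finset.card_erase_of_mem hb]; omega

/-- the step for `j + 1 ≤ m`: all derivatives are classical -/
lemma Pair.step {m : ℕ} {S S' : Finset ℝ} {U V R T : ℝ → ℝ} (h : Pair (m + 1) S U V)
    (h' : Pair m S' R T) {b : ℝ} (eR : ∀ x, U x = (x - b) * R x) (eT : ∀ x, V x = (x - b) * T x)
    {j : ℕ} (hj : j + 1 ≤ m) (w : ℝ[X]) (p q : ℝ) :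
    ∫ x in p..q, w.eval x * PP (j + 1) U V x =
      (∫ x in p..q, (w * ((X - C b) * (X - C b))).eval x * PP (j + 1) R T x) +
      (j + 1) * (∫ x in p..q, (C (j : ℝ) * w - derivative w * (X - C b)).eval x * PP j R T x) +
      (j + 1) * (w.eval q * ((q - b) * PP j R T q) - w.eval p * ((p - b) * PP j R T p)) := by
  have hUj : ContDiff ℝ ((j + 1 : ℕ) : WithTop ℕ∞) U := h.MU.1.of_le (by exact_mod_cast (by omega))
  have hVj : ContDiff ℝ ((j + 1 : ℕ) : WithTop ℕ∞) V := h.MV.1.of_le (by exact_mod_cast (by omega))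
  have hRj : ContDiff ℝ ((j + 1 : ℕ) : WithTop ℕ∞) R := h'.MU.1.of_le (by exact_mod_cast hj)
  have hTj : ContDiff ℝ ((j + 1 : ℕ) : WithTop ℕ∞) T := h'.MV.1.of_le (by exact_mod_cast hj)
  have hRj0 : ContDiff ℝ (j : WithTop ℕ∞) R := hRj.of_le (by exact_mod_cast Nat.le_succ j)
  have hTj0 : ContDiff ℝ (j : WithTop ℕ∞) T := hTj.of_le (by exact_mod_cast Nat.le_succ j)
  have H := rel_of b j U R hUj hRj0 eR
  have H' := rel_of b j V T hVj hTj0 eT
  have lU : ∀ x, iteratedDeriv (j + 1) U x
      = (x - b) * iteratedDeriv (j + 1) R x + (j + 1) * iteratedDeriv j R x := by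
    intro x
    have := leibniz b R (j + 1) hRj x
    rw [← (funext eR : U = fun x => (x - b) * R x)] at this
    rw [this]; push_cast; simp
  have lV : ∀ x, iteratedDeriv (j + 1) V x
      = (x - b) * iteratedDeriv (j + 1) T x + (j + 1) * iteratedDeriv j T x := by
    intro x
    have := leibniz b T (j + 1) hTj x
    rw [← (funext eT : V = fun x => (x - b) * T x)] at this
    rw [this]; push_cast; simp
  have key := Pool.H72.NP.step H H' w p q
  have e0 : ∫ x in p..q, w.eval x * PP (j + 1) U V x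
      = ∫ x in p..q, w.eval x * (iteratedDeriv (j + 1) U x * iteratedDeriv (j + 1) V x) := rfl
  rw [e0, key]
  congr 1
  · congr 1
    · apply intervalIntegral.integral_congr
      intro x _
      simp only [PP, eval_mul, eval_sub, eval_X, eval_C]
      rw [lU, lV]
      ring
    · congr 1
      apply intervalIntegral.integral_congr
      intro x _
      simp only [PP, eval_mul, eval_sub, eval_X, eval_C]
  · simp only [PP]; ring

lemma delta1' {j : ℕ} {S : Finset ℝ} {U V : ℝ → ℝ} (h : Pair j S U V) (w : ℝ[X]) {p q : ℝ}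
    (hp : -1 ≤ p) (hpq : p ≤ q) (hq : q ≤ 1) (hS : ∀ z ∈ S, z ∈ Set.Icc p q) (hw : NN w p) :
    0 ≤ ∫ x in p..q, w.eval x * PP j U V x :=
  delta1 j w p q S U V hp hpq hq h.card hS h.MU h.MV h.zU h.zV
    (fun i _ x hx => (hw.mono hx.1) i)

/-- cutting off the part to the left of the smallest node -/
lemma cut_left {m : ℕ} {S : Finset ℝ} {U V : ℝ → ℝ} (h : Pair m S U V) {j : ℕ} (hj : j ≤ m)
    (w : ℝ[X]) {p q b : ℝ} (hp : -1 ≤ p) (hpb : p ≤ b) (hb1 : b ≤ 1)
    (hbS : ∀ z ∈ S, b ≤ z) (hw : NN w p)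
    (hI : 0 ≤ ∫ x in b..q, w.eval x * PP j U V x) :
    0 ≤ ∫ x in p..q, w.eval x * PP j U V x := by
  have cP := h.cont hj
  have cw : Continuous fun x => w.eval x := w.continuous
  have cc : Continuous fun x => w.eval x * PP j U V x := cw.mul cP
  rw [← intervalIntegral.integral_add_adjacent_intervals (cc.intervalIntegrable p b)
      (cc.intervalIntegrable b q)]
  refine add_nonneg ?_ hI
  apply intervalIntegral.integral_nonneg hpb
  intro x hx
  apply mul_nonneg
  · simpa using (hw.mono hx.1) 0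
  · exact h.left hj ⟨by linarith [hx.1], by linarith [hx.2]⟩ (fun z hz => hx.2.trans (hbS z hz))

/-- `δ = 2` -/
lemma delta2 : ∀ (j : ℕ) (w : ℝ[X]) (p q : ℝ) (S : Finset ℝ) (U V : ℝ → ℝ),
    -1 ≤ p → p ≤ q → q ≤ 1 → Pair (j + 1) S U V → (∀ z ∈ S, z ∈ Set.Icc p q) →
    NN w p → derivative^[j] w = 0 →
    0 ≤ ∫ x in p..q, w.eval x * PP j U V x := by
  intro j
  induction j with
  | zero =>
    intro w p q S U V hp hpq hq h hS hw hd
    simp only [Function.iterate_zero, id_eq] at hd
    subst hd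
    simp
  | succ j ih =>
    intro w p q S U V hp hpq hq h hS hw hd
    have hne : S.Nonempty := Finset.card_pos.1 (by rw [h.card]; omega)
    set b := S.min' hne with hbdef
    have hb : b ∈ S := S.min'_mem hne
    have hbm : ∀ z ∈ S, b ≤ z := fun z hz => S.min'_le z hz
    have hpb : p ≤ b := (hS b hb).1
    have hbq : b ≤ q := (hS b hb).2
    apply cut_left h (by omega) w hp hpb (by linarith) hbm hw
    obtain ⟨R, T, h', eR, eT⟩ := h.strip hb
    rw [h.step h' eR eT (by omega) w b q]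
    have hS' : ∀ z ∈ S.erase b, z ∈ Set.Icc b q := fun z hz =>
      ⟨hbm z (Finset.mem_of_mem_erase hz), (hS z (Finset.mem_of_mem_erase hz)).2⟩
    have hwb : NN w b := hw.mono hpb
    have t1 := delta1' h' (w * ((X - C b) * (X - C b))) (by linarith) hbq hq hS'
      (by rw [← mul_assoc]; exact hwb.lin.lin)
    have hN : NN (C (j : ℝ) * w - derivative w * (X - C b)) b := by
      intro i
      rw [der_polar]
      simp only [eval_sub, eval_mul, eval_C, eval_X, sub_self, mul_zero, sub_zero]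
      rcases Nat.lt_or_ge j i with hij | hij
      · have : derivative^[i] w = 0 := by
          obtain ⟨k, rfl⟩ : ∃ k, i = k + (j + 1) := ⟨i - (j + 1), by omega⟩
          rw [Function.iterate_add_apply, hd, iterate_derivative_zero]
        rw [this]; simp
      · exact mul_nonneg (sub_nonneg.2 (by exact_mod_cast hij)) (hwb i)
    have hD : derivative^[j] (C (j : ℝ) * w - derivative w * (X - C b)) = 0 := by
      rw [der_polar, hd]; simp
    have t2 := ih (C (j : ℝ) * w - derivative w * (X - C b)) b q (S.erase b) R T (by linarith)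
      hbq hq h' hS' hN hD
    have t3 : 0 ≤ w.eval q * ((q - b) * PP j R T q) := by
      apply mul_nonneg (by simpa using (hw.mono hpq) 0)
      apply mul_nonneg (by linarith)
      exact h'.right (by omega) ⟨by linarith, hq⟩ (fun z hz => (hS' z hz).2)
    have t4 := mul_nonneg (by positivity : (0 : ℝ) ≤ (j : ℝ) + 1) t2
    have t5 : 0 ≤ ((j : ℝ) + 1) * (w.eval q * ((q - b) * PP j R T q)
        - w.eval b * ((b - b) * PP j R T b)) := by
      apply mul_nonneg (by positivity)
      simpa using t3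
    linarith

lemma nnC {K : ℝ} (hK : 0 ≤ K) (p : ℝ) : NN (C K) p := by
  intro k
  rcases Nat.eq_zero_or_pos k with hk | hk
  · subst hk; simpa using hK
  · obtain ⟨l, rfl⟩ : ∃ l, k = l + 1 := ⟨k - 1, by omega⟩
    rw [Function.iterate_succ_apply, derivative_C, iterate_derivative_zero, eval_zero]

/-- `δ = 3`, weight `1`, `j ≥ 2` -/
lemma delta3 : ∀ (i : ℕ) (p q : ℝ) (S : Finset ℝ) (U V : ℝ → ℝ),
    -1 ≤ p → p ≤ q → q ≤ 1 → Pair (i + 4) S U V → (∀ z ∈ S, z ∈ Set.Icc p q) →
    0 ≤ ∫ x in p..q, PP (i + 2) U V x := by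
  have nn1 : ∀ p : ℝ, NN (1 : ℝ[X]) p := by
    intro p i
    rcases Nat.eq_zero_or_pos i with h | h
    · subst h; simp
    · obtain ⟨k, rfl⟩ : ∃ k, i = k + 1 := ⟨i - 1, by omega⟩
      rw [Function.iterate_succ_apply]; simp
  intro i
  induction i with
  | zero =>
    intro p q S U V hp hpq hq h hS
    have hne : S.Nonempty := Finset.card_pos.1 (by rw [h.card]; omega)
    set b := S.min' hne with hbdef
    have hb : b ∈ S := S.min'_mem hne
    have hbm : ∀ z ∈ S, b ≤ z := fun z hz => S.min'_le z hz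
    have hpb : p ≤ b := (hS b hb).1
    have hbq : b ≤ q := (hS b hb).2
    have e1 : ∀ u v : ℝ, ∀ (j : ℕ) (A B : ℝ → ℝ), ∫ x in u..v, PP j A B x
        = ∫ x in u..v, (1 : ℝ[X]).eval x * PP j A B x := by
      intro u v j A B; simp
    rw [e1]
    apply cut_left h (by omega) 1 hp hpb (by linarith) hbm (nn1 p)
    obtain ⟨R, T, h', eR, eT⟩ := h.strip hb
    rw [h.step h' eR eT (j := 1) (by omega) 1 b q]
    have hS' : ∀ z ∈ S.erase b, z ∈ Set.Icc b q := fun z hz =>
      ⟨hbm z (Finset.mem_of_mem_erase hz), (hS z (Finset.mem_of_mem_erase hz)).2⟩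
    have t3 : 0 ≤ (q - b) * PP 1 R T q := by
      apply mul_nonneg (by linarith)
      exact h'.right (by omega) ⟨by linarith, hq⟩ (fun z hz => (hS' z hz).2)
    have hne' : (S.erase b).Nonempty := Finset.card_pos.1 (by rw [h'.card]; omega)
    set c := (S.erase b).min' hne' with hcdef
    have hc : c ∈ S.erase b := (S.erase b).min'_mem hne'
    have hcm : ∀ z ∈ S.erase b, c ≤ z := fun z hz => (S.erase b).min'_le z hz
    have hbc : b ≤ c := (hS' c hc).1
    have hcq : c ≤ q := (hS' c hc).2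
    obtain ⟨R2, T2, h2, eR2, eT2⟩ := h'.strip hc
    have hS2 : ∀ z ∈ (S.erase b).erase c, z ∈ Set.Icc c q := fun z hz =>
      ⟨hcm z (Finset.mem_of_mem_erase hz), (hS' z (Finset.mem_of_mem_erase hz)).2⟩
    -- the two integrals over `[c, q]`
    have cR1 := h'.cont (j := 1) (by omega)
    have cR2 := h'.cont (j := 2) (by omega)
    have cQ1 := h2.cont (j := 1) (by omega)
    have cQ2 := h2.cont (j := 2) (by omega)
    have cQ0 := h2.cont (j := 0) (by omega)
    have wS : NN ((1 : ℝ[X]) * ((X - C b) * (X - C b))) b := by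
      rw [← mul_assoc]; exact ((nn1 b).lin).lin
    have s1 := h'.step h2 eR2 eT2 (j := 1) (by omega) ((1 : ℝ[X]) * ((X - C b) * (X - C b))) c q
    have s2 := h'.step h2 eR2 eT2 (j := 0) (by omega) (1 : ℝ[X]) c q
    -- the total over `[b, q]` is at least the total over `[c, q]`
    have ci1 : Continuous fun x => ((1 : ℝ[X]) * ((X - C b) * (X - C b))).eval x * PP 2 R T x :=
      (Polynomial.continuous _).mul cR2
    have ci2 : Continuous fun x => (1 : ℝ[X]).eval x * PP 1 R T x :=
      (Polynomial.continuous _).mul cR1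
    have d1 : ∫ x in c..q, ((1 : ℝ[X]) * ((X - C b) * (X - C b))).eval x * PP 2 R T x ≤
        ∫ x in b..q, ((1 : ℝ[X]) * ((X - C b) * (X - C b))).eval x * PP 2 R T x := by
      rw [← intervalIntegral.integral_add_adjacent_intervals (ci1.intervalIntegrable b c)
        (ci1.intervalIntegrable c q)]
      have : 0 ≤ ∫ x in b..c, ((1 : ℝ[X]) * ((X - C b) * (X - C b))).eval x * PP 2 R T x := by
        apply intervalIntegral.integral_nonneg hbc
        intro x hx
        apply mul_nonneg
        · simpa using (wS.mono hx.1) 0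
        · exact h'.left (by omega) ⟨by linarith [hx.1], by linarith [hx.2]⟩
            (fun z hz => hx.2.trans (hcm z hz))
      linarith
    have d2 : ∫ x in c..q, (1 : ℝ[X]).eval x * PP 1 R T x ≤
        ∫ x in b..q, (1 : ℝ[X]).eval x * PP 1 R T x := by
      rw [← intervalIntegral.integral_add_adjacent_intervals (ci2.intervalIntegrable b c)
        (ci2.intervalIntegrable c q)]
      have : 0 ≤ ∫ x in b..c, (1 : ℝ[X]).eval x * PP 1 R T x := by
        apply intervalIntegral.integral_nonneg hbc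
        intro x hx
        apply mul_nonneg (by simp)
        exact h'.left (by omega) ⟨by linarith [hx.1], by linarith [hx.2]⟩
            (fun z hz => hx.2.trans (hcm z hz))
      linarith
    -- the leading terms
    have u1 := delta1' h2 (((1 : ℝ[X]) * ((X - C b) * (X - C b))) * ((X - C c) * (X - C c)))
      (by linarith) hcq hq hS2 (by
        rw [← mul_assoc]; exact ((wS.mono hbc).lin).lin)
    have u2 := delta2 1 (C (2 * (c - b) ^ 2)) c q _ R2 T2 (by linarith) hcq hq h2 hS2
      (nnC (by positivity) c) (by rw [Function.iterate_one, derivative_C])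
    -- algebra of the `j = 1` weights
    have a1 : ∫ x in c..q, (C (2 * (c - b) ^ 2)).eval x * PP 1 R2 T2 x =
        (1 + 1) * (∫ x in c..q, (C (1 : ℝ) * ((1 : ℝ[X]) * ((X - C b) * (X - C b)))
          - derivative ((1 : ℝ[X]) * ((X - C b) * (X - C b))) * (X - C c)).eval x * PP 1 R2 T2 x)
        + 2 * ∫ x in c..q, ((1 : ℝ[X]) * ((X - C c) * (X - C c))).eval x * PP 1 R2 T2 x := by
      rw [← intervalIntegral.integral_const_mul, ← intervalIntegral.integral_const_mul,
        ← intervalIntegral.integral_add]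
      · apply intervalIntegral.integral_congr
        intro x _
        simp only [eval_mul, eval_sub, eval_C, eval_X, one_mul, derivative_mul, derivative_sub,
          derivative_X, derivative_C, sub_zero, mul_one, eval_add]
        ring
      · exact (((Polynomial.continuous _).mul cQ1).intervalIntegrable _ _).const_mul _
      · exact (((Polynomial.continuous _).mul cQ1).intervalIntegrable _ _).const_mul _
    have b1 : 0 ≤ ((1 : ℝ[X]) * ((X - C b) * (X - C b))).eval q * ((q - c) * PP 1 R2 T2 q) := by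
      apply mul_nonneg (by simpa using (wS.mono hbq) 0)
      apply mul_nonneg (by linarith)
      exact h2.right (by omega) ⟨by linarith, hq⟩ (fun z hz => (hS2 z hz).2)
    have b2 : 0 ≤ (q - c) * PP 0 R2 T2 q := by
      apply mul_nonneg (by linarith)
      exact h2.right (by omega) ⟨by linarith, hq⟩ (fun z hz => (hS2 z hz).2)
    norm_num at s1 s2 a1 b1 d1 d2 u1 u2 ⊢
    norm_num at s1 s2 a1 b1 d1 d2 u1 u2 ⊢
    nlinarith [s1, s2, a1, b1, b2, d1, d2, u1, u2, t3]
  | succ i ih =>
    intro p q S U V hp hpq hq h hS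
    have hne : S.Nonempty := Finset.card_pos.1 (by rw [h.card]; omega)
    set b := S.min' hne with hbdef
    have hb : b ∈ S := S.min'_mem hne
    have hbm : ∀ z ∈ S, b ≤ z := fun z hz => S.min'_le z hz
    have hpb : p ≤ b := (hS b hb).1
    have hbq : b ≤ q := (hS b hb).2
    have e1 : ∀ u v : ℝ, ∀ (j : ℕ) (A B : ℝ → ℝ), ∫ x in u..v, PP j A B x
        = ∫ x in u..v, (1 : ℝ[X]).eval x * PP j A B x := by
      intro u v j A B; simp
    rw [e1]
    apply cut_left h (by omega) 1 hp hpb (by linarith) hbm (nn1 p)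
    obtain ⟨R, T, h', eR, eT⟩ := h.strip hb
    rw [h.step h' eR eT (j := i + 2) (by omega) 1 b q]
    have hS' : ∀ z ∈ S.erase b, z ∈ Set.Icc b q := fun z hz =>
      ⟨hbm z (Finset.mem_of_mem_erase hz), (hS z (Finset.mem_of_mem_erase hz)).2⟩
    have t3 : 0 ≤ (q - b) * PP (i + 2) R T q := by
      apply mul_nonneg (by linarith)
      exact h'.right (by omega) ⟨by linarith, hq⟩ (fun z hz => (hS' z hz).2)
    have wS : NN ((1 : ℝ[X]) * ((X - C b) * (X - C b))) b := by
      rw [← mul_assoc]; exact ((nn1 b).lin).lin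
    have t1 := delta2 (i + 3) ((1 : ℝ[X]) * ((X - C b) * (X - C b))) b q _ R T (by linarith)
      hbq hq h' hS' wS (by
        have e : (1 : ℝ[X]) * ((X - C b) * (X - C b)) = (X - C b) ^ 2 := by ring
        rw [e, show i + 3 = i + (2 + 1) by omega, Function.iterate_add_apply]
        have : derivative^[2 + 1] ((X - C b) ^ 2) = 0 := by
          apply iterate_derivative_eq_zero
          rw [natDegree_pow, natDegree_X_sub_C]; norm_num
        rw [this, iterate_derivative_zero])
    have t2 := ih b q _ R T (by linarith) hbq hq h' hS'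
    have e2 : ∫ x in b..q, (C ((i + 2 : ℕ) : ℝ) * (1 : ℝ[X]) - derivative (1 : ℝ[X]) * (X - C b)).eval x
        * PP (i + 2) R T x = ((i + 2 : ℕ) : ℝ) * ∫ x in b..q, PP (i + 2) R T x := by
      rw [← intervalIntegral.integral_const_mul]
      apply intervalIntegral.integral_congr
      intro x _
      simp
    rw [e2]
    have t4 : 0 ≤ (((i + 2 : ℕ) : ℝ) + 1) * (((i + 2 : ℕ) : ℝ) * ∫ x in b..q, PP (i + 2) R T x) := by
      positivity
    have t5 : 0 ≤ (((i + 2 : ℕ) : ℝ) + 1) * ((1 : ℝ[X]).eval q * ((q - b) * PP (i + 2) R T q)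
        - (1 : ℝ[X]).eval b * ((b - b) * PP (i + 2) R T b)) := by
      apply mul_nonneg (by positivity)
      simpa using t3
    have e3 : i + 1 + 2 = i + 2 + 1 := by omega
    have e4 : i + 3 = i + 2 + 1 := by omega
    rw [e4] at t1
    linarith

end Pool.H72.NP
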