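import Mathlib
import Pool.Agent.H72.NP.Delta3

set_option autoImplicit false

/-!
# The weights `om B l a`

For a finite set `B` of nodes, `om B l a` is the normalised weight of `U^(k-l) V^(k-l)` in
`∫ (φ U)^(k) (φ V)^(k)`, where `φ = ∏_{b ∈ B} (x - b)` and `a = k - |B|`. It is defined by a
recursion with nonnegative terms (for `a + l ≥ 1`); `om_rec` is the recursion which comes from
splitting off one node.
-/

namespace Pool.H72.NP

open Polynomial

/-- the weights -/
noncomputable def om (T : Finset ℝ) (l : ℕ) (a : ℤ) : ℝ[X] :=
  if h : T.Nonempty then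
    (X - C (T.max' h)) ^ 2 * om (T.erase (T.max' h)) l a +
      (match l with
        | 0 => 0
        | l' + 1 => C (((a + l' : ℤ)) : ℝ) * om (T.erase (T.max' h)) l' a +
            ∑ b ∈ T.erase (T.max' h), C ((b - T.max' h) ^ 2) *
              om ((T.erase (T.max' h)).erase b) l' (a + 1))
  else if l = 0 then 1 else 0
termination_by T.card
decreasing_by
  · exact Finset.card_erase_lt_of_mem (T.max'_mem h)
  · exact Finset.card_erase_lt_of_mem (T.max'_mem h)
  · exact lt_of_le_of_lt (Finset.card_erase_le) (Finset.card_erase_lt_of_mem (T.max'_mem h))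

lemma om_empty (l : ℕ) (a : ℤ) : om ∅ l a = if l = 0 then 1 else 0 := by
  rw [om]; simp

lemma max'_insert' {B : Finset ℝ} {c : ℝ} (h : ∀ b ∈ B, b < c) (hne : (insert c B).Nonempty) :
    (insert c B).max' hne = c := by
  apply le_antisymm
  · apply Finset.max'_le
    intro y hy
    rcases Finset.mem_insert.1 hy with h1 | h1
    · exact h1.le
    · exact (h y h1).le
  · exact Finset.le_max' _ _ (Finset.mem_insert_self c B)

lemma om_insert_zero {B : Finset ℝ} {c : ℝ} (h : ∀ b ∈ B, b < c) (a : ℤ) :
    om (insert c B) 0 a = (X - C c) ^ 2 * om B 0 a := by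
  have hne : (insert c B).Nonempty := Finset.insert_nonempty c B
  have hcB : c ∉ B := fun hc => lt_irrefl c (h c hc)
  rw [om, dif_pos hne]
  simp only [max'_insert' h hne, Finset.erase_insert hcB, add_zero]

lemma om_insert_succ {B : Finset ℝ} {c : ℝ} (h : ∀ b ∈ B, b < c) (l : ℕ) (a : ℤ) :
    om (insert c B) (l + 1) a = (X - C c) ^ 2 * om B (l + 1) a +
      (C (((a + l : ℤ)) : ℝ) * om B l a +
        ∑ b ∈ B, C ((b - c) ^ 2) * om (B.erase b) l (a + 1)) := by
  have hne : (insert c B).Nonempty := Finset.insert_nonempty c B
  have hcB : c ∉ B := fun hc => lt_irrefl c (h c hc)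
  rw [om, dif_pos hne]
  simp only [max'_insert' h hne, Finset.erase_insert hcB]

lemma swap_sum (B : Finset ℝ) (g : ℝ → ℝ → ℝ[X]) :
    ∑ b ∈ B, ∑ b' ∈ B.erase b, g b b' = ∑ b ∈ B, ∑ b' ∈ B.erase b, g b' b := by
  have e : ∀ (g : ℝ → ℝ → ℝ[X]), ∑ b ∈ B, ∑ b' ∈ B.erase b, g b b'
      = ∑ b ∈ B, ∑ b' ∈ B, if b' ≠ b then g b b' else 0 := by
    intro g
    apply Finset.sum_congr rfl
    intro b _
    rw [← Finset.sum_filter, Finset.filter_ne']
  rw [e, e, Finset.sum_comm]
  apply Finset.sum_congr rfl
  intro b _
  apply Finset.sum_congr rfl
  intro b' _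
  by_cases hb : b' = b
  · simp [hb]
  · simp [hb, Ne.symm hb]

/-- sums over the elements of `insert c B` -/
lemma sum_insert_erase {B : Finset ℝ} {c : ℝ} (h : ∀ b ∈ B, b < c)
    (f : ℝ → Finset ℝ → ℝ[X]) :
    ∑ b ∈ insert c B, f b ((insert c B).erase b) = f c B + ∑ b ∈ B, f b (insert c (B.erase b)) := by
  have hcB : c ∉ B := fun hc => lt_irrefl c (h c hc)
  rw [Finset.sum_insert hcB, Finset.erase_insert hcB]
  congr 1
  apply Finset.sum_congr rfl
  intro b hb
  rw [Finset.erase_insert_of_ne (h b hb).ne']

/-- the weight for `l = 0` does not depend on `a` -/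
lemma om_zero_indep (B : Finset ℝ) : ∀ a a' : ℤ, om B 0 a = om B 0 a' := by
  induction B using Finset.induction_on_max with
  | empty => intro a a'; rw [om_empty, om_empty]
  | insert c B h ih => intro a a'; rw [om_insert_zero h, om_insert_zero h, ih a a']

/-- the three identities -/
def Ids (B : Finset ℝ) : Prop :=
  (∀ (l : ℕ) (a : ℤ), derivative (om B l a) = ∑ b ∈ B, 2 * (X - C b) * om (B.erase b) l a) ∧
  (∀ (l : ℕ) (a : ℤ), om B (l + 1) (a + 1) - om B (l + 1) a
      = ∑ b ∈ B, om (B.erase b) l (a + 1)) ∧
  (∀ (l : ℕ) (a : ℤ), ∑ b ∈ B, (X - C b) ^ 2 * om (B.erase b) l (a + 1)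
      = C (((B.card - l + a : ℤ)) : ℝ) * om B l (a + 1) - C (((a + l : ℤ)) : ℝ) * om B l a)

lemma ids : ∀ (n : ℕ) (B : Finset ℝ), B.card = n → Ids B := by
  intro n
  induction n using Nat.strong_induction_on with
  | _ n ih =>
    intro T hT
    rcases T.eq_empty_or_nonempty with rfl | hne
    · refine ⟨?_, ?_, ?_⟩
      · intro l a
        rw [om_empty]
        by_cases hl : l = 0 <;> simp [hl]
      · intro l a
        simp [om_empty]
      · intro l a
        rw [om_empty, om_empty]
        by_cases hl : l = 0
        · subst hl; simp
        · simp [hl]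
    · -- `T = insert c B`
      set c := T.max' hne with hc
      set B := T.erase c with hB
      have hcT : c ∈ T := T.max'_mem hne
      have hTi : T = insert c B := (Finset.insert_erase hcT).symm
      have h : ∀ b ∈ B, b < c := by
        intro b hb
        rw [hB, Finset.mem_erase] at hb
        exact lt_of_le_of_ne (T.le_max' b hb.2) hb.1
      have hBc : B.card + 1 = n := by
        rw [hB, Finset.card_erase_of_mem hcT]
        have := Finset.card_pos.2 hne
        omega
      have IB : Ids B := ih B.card (by omega) B rfl
      have IE : ∀ b ∈ B, Ids (B.erase b) := by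
        intro b hb
        apply ih (B.erase b).card _ _ rfl
        rw [Finset.card_erase_of_mem hb]; omega
      have hE : ∀ b ∈ B, ∀ b' ∈ B.erase b, b' < c := fun b _ b' hb' =>
        h b' (Finset.mem_of_mem_erase hb')
      rw [hTi]
      clear_value c B
      refine ⟨?_, ?_, ?_⟩
      · -- derivative
        intro l a
        rw [sum_insert_erase h (fun b T => 2 * (X - C b) * om T l a)]
        cases l with
        | zero =>
          rw [om_insert_zero h]
          have e : ∀ b ∈ B, 2 * (X - C b) * om (insert c (B.erase b)) 0 a
              = (X - C c) ^ 2 * (2 * (X - C b) * om (B.erase b) 0 a) := by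
            intro b hb
            rw [om_insert_zero (hE b hb)]; ring
          rw [Finset.sum_congr rfl e, ← Finset.mul_sum, ← IB.1]
          simp only [derivative_mul, derivative_pow, derivative_sub, derivative_X, derivative_C,
            Nat.cast_ofNat, map_ofNat]
          ring
        | succ l =>
          rw [om_insert_succ h]
          have e : ∀ b ∈ B, 2 * (X - C b) * om (insert c (B.erase b)) (l + 1) a
              = (X - C c) ^ 2 * (2 * (X - C b) * om (B.erase b) (l + 1) a) +
                (C (((a + l : ℤ)) : ℝ) * (2 * (X - C b) * om (B.erase b) l a) +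
                  ∑ b' ∈ B.erase b, 2 * (X - C b) * (C ((b' - c) ^ 2) *
                    om ((B.erase b).erase b') l (a + 1))) := by
            intro b hb
            rw [om_insert_succ (hE b hb), ← Finset.mul_sum]
            ring
          rw [Finset.sum_congr rfl e, Finset.sum_add_distrib, Finset.sum_add_distrib,
            ← Finset.mul_sum, ← Finset.mul_sum, ← IB.1, ← IB.1, swap_sum]
          have e2 : ∑ b ∈ B, ∑ b' ∈ B.erase b, 2 * (X - C b') * (C ((b - c) ^ 2) *
                    om ((B.erase b').erase b) l (a + 1))
              = ∑ b ∈ B, C ((b - c) ^ 2) * derivative (om (B.erase b) l (a + 1)) := by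
            apply Finset.sum_congr rfl
            intro b hb
            rw [(IE b hb).1, Finset.mul_sum]
            apply Finset.sum_congr rfl
            intro b' _
            rw [Finset.erase_right_comm]
            ring
          rw [e2]
          simp only [derivative_add, derivative_mul, derivative_pow, derivative_sub, derivative_X,
            derivative_C, derivative_sum, Nat.cast_ofNat, map_ofNat, zero_mul, zero_add]
          ring
      · -- difference in `a`
        intro l a
        rw [sum_insert_erase h (fun b T => om T l (a + 1)), om_insert_succ h, om_insert_succ h]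
        cases l with
        | zero =>
          have e : ∀ b ∈ B, om (insert c (B.erase b)) 0 (a + 1)
              = (X - C c) ^ 2 * om (B.erase b) 0 (a + 1) := by
            intro b hb; rw [om_insert_zero (hE b hb)]
          rw [Finset.sum_congr rfl e, ← Finset.mul_sum, ← IB.2.1, om_zero_indep B a (a + 1)]
          have e3 : ∑ b ∈ B, C ((b - c) ^ 2) * om (B.erase b) 0 (a + 1 + 1)
              = ∑ b ∈ B, C ((b - c) ^ 2) * om (B.erase b) 0 (a + 1) := by
            apply Finset.sum_congr rfl
            intro b _
            rw [om_zero_indep (B.erase b) (a + 1 + 1) (a + 1)]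
          rw [e3]
          push_cast
          simp only [map_add, map_one, map_intCast, Nat.cast_zero, map_zero]
          ring
        | succ l =>
          have e : ∀ b ∈ B, om (insert c (B.erase b)) (l + 1) (a + 1)
              = (X - C c) ^ 2 * om (B.erase b) (l + 1) (a + 1) +
                (C (((a + 1 + l : ℤ)) : ℝ) * om (B.erase b) l (a + 1) +
                  ∑ b' ∈ B.erase b, C ((b' - c) ^ 2) *
                    om ((B.erase b).erase b') l (a + 1 + 1)) := by
            intro b hb; rw [om_insert_succ (hE b hb)]
          rw [Finset.sum_congr rfl e, Finset.sum_add_distrib, Finset.sum_add_distrib,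
            ← Finset.mul_sum, ← Finset.mul_sum, ← IB.2.1, ← IB.2.1, swap_sum]
          have e2 : ∑ b ∈ B, ∑ b' ∈ B.erase b, C ((b - c) ^ 2) *
                    om ((B.erase b').erase b) l (a + 1 + 1)
              = ∑ b ∈ B, (C ((b - c) ^ 2) * om (B.erase b) (l + 1) (a + 1 + 1) -
                  C ((b - c) ^ 2) * om (B.erase b) (l + 1) (a + 1)) := by
            apply Finset.sum_congr rfl
            intro b hb
            rw [← mul_sub, (IE b hb).2.1, Finset.mul_sum]
            apply Finset.sum_congr rfl
            intro b' _
            rw [Finset.erase_right_comm]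
          rw [e2, Finset.sum_sub_distrib]
          push_cast
          simp only [map_add, map_one, map_intCast, map_natCast]
          ring
      · -- the Euler identity
        intro l a
        rw [sum_insert_erase h (fun b T => (X - C b) ^ 2 * om T l (a + 1))]
        have hcard : ((insert c B).card : ℤ) = B.card + 1 := by
          rw [Finset.card_insert_of_notMem (fun hc => lt_irrefl c (h c hc))]; push_cast; ring
        rw [hcard]
        cases l with
        | zero =>
          have e : ∀ b ∈ B, (X - C b) ^ 2 * om (insert c (B.erase b)) 0 (a + 1)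
              = (X - C c) ^ 2 * ((X - C b) ^ 2 * om (B.erase b) 0 (a + 1)) := by
            intro b hb; rw [om_insert_zero (hE b hb)]; ring
          rw [Finset.sum_congr rfl e, ← Finset.mul_sum, IB.2.2, om_insert_zero h, om_insert_zero h]
          push_cast
          simp only [map_add, map_sub, map_one, map_intCast, map_natCast, Nat.cast_zero, map_zero]
          ring
        | succ l =>
          have e : ∀ b ∈ B, (X - C b) ^ 2 * om (insert c (B.erase b)) (l + 1) (a + 1)
              = (X - C c) ^ 2 * ((X - C b) ^ 2 * om (B.erase b) (l + 1) (a + 1)) +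
                (C (((a + 1 + l : ℤ)) : ℝ) * ((X - C b) ^ 2 * om (B.erase b) l (a + 1)) +
                  ∑ b' ∈ B.erase b, (X - C b) ^ 2 * (C ((b' - c) ^ 2) *
                    om ((B.erase b).erase b') l (a + 1 + 1))) := by
            intro b hb
            rw [om_insert_succ (hE b hb), ← Finset.mul_sum]
            ring
          rw [Finset.sum_congr rfl e, Finset.sum_add_distrib, Finset.sum_add_distrib,
            ← Finset.mul_sum, ← Finset.mul_sum, IB.2.2, IB.2.2, swap_sum]
          have e2 : ∑ b ∈ B, ∑ b' ∈ B.erase b, (X - C b') ^ 2 * (C ((b - c) ^ 2) *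
                    om ((B.erase b').erase b) l (a + 1 + 1))
              = ∑ b ∈ B, (C (((B.card - 1 - l + (a + 1) : ℤ)) : ℝ) *
                  (C ((b - c) ^ 2) * om (B.erase b) l (a + 1 + 1)) -
                  C (((a + 1 + l : ℤ)) : ℝ) * (C ((b - c) ^ 2) * om (B.erase b) l (a + 1))) := by
            apply Finset.sum_congr rfl
            intro b hb
            have e3 := (IE b hb).2.2 l (a + 1)
            have e4 : ((B.erase b).card : ℤ) = B.card - 1 := by
              rw [Finset.card_erase_of_mem hb]
              have := Finset.card_pos.2 ⟨b, hb⟩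
              omega
            rw [e4] at e3
            have e5 : ∑ b' ∈ B.erase b, (X - C b') ^ 2 * (C ((b - c) ^ 2) *
                om ((B.erase b').erase b) l (a + 1 + 1)) = C ((b - c) ^ 2) *
                ∑ b' ∈ B.erase b, (X - C b') ^ 2 * om ((B.erase b).erase b') l (a + 1 + 1) := by
              rw [Finset.mul_sum]
              apply Finset.sum_congr rfl
              intro b' _
              rw [Finset.erase_right_comm]
              ring
            rw [e5, e3]
            ring
          rw [e2, Finset.sum_sub_distrib, ← Finset.mul_sum, ← Finset.mul_sum, om_insert_succ h,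
            om_insert_succ h]
          push_cast
          simp only [map_add, map_sub, map_one, map_intCast, map_natCast]
          ring

/-- the recursion of the weights when one node is split off -/
lemma om_rec {B : Finset ℝ} {c : ℝ} (h : ∀ b ∈ B, b < c) (l : ℕ) (a : ℤ) :
    om (insert c B) (l + 1) a = (X - C c) ^ 2 * om B (l + 1) (a + 1) +
      (C (((a + B.card - l : ℤ)) : ℝ) * om B l (a + 1) -
        (X - C c) * derivative (om B l (a + 1))) := by
  obtain ⟨h1, h2, h3⟩ := ids B.card B rfl
  rw [om_insert_succ h, h1]
  have e : ∀ b ∈ B, C ((b - c) ^ 2) * om (B.erase b) l (a + 1) =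
      (X - C b) ^ 2 * om (B.erase b) l (a + 1)
        - (X - C c) * (2 * (X - C b) * om (B.erase b) l (a + 1))
        + (X - C c) ^ 2 * om (B.erase b) l (a + 1) := by
    intro b _
    simp only [map_pow, map_sub]
    ring
  rw [Finset.sum_congr rfl e, Finset.sum_add_distrib, Finset.sum_sub_distrib, h3,
    ← Finset.mul_sum, ← Finset.mul_sum, ← h2]
  push_cast
  simp only [map_add, map_sub, map_one, map_intCast, map_natCast]
  ring

end Pool.H72.NP
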