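import Mathlib
import Pool.Agent.H72.NP.Om

set_option autoImplicit false

/-!
# Splitting off all nodes from the left

`chain`: the sum of `∫ (cw k B j) U^(j) V^(j)` over `j < m` is nonnegative, if `U`, `V` have `m + 1`
common zeros to the right of the removed nodes `B` and `|B| + m + 1 ≤ 2 k + 1`.
-/

namespace Pool.H72.NP

open MeasureTheory intervalIntegral Polynomial
open Pool.H611.BS (Mon mon_div)

lemma NN.add {v w : ℝ[X]} {p : ℝ} (hv : NN v p) (hw : NN w p) : NN (v + w) p := by
  intro i
  rw [iterate_map_add, eval_add]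
  exact add_nonneg (hv i) (hw i)

lemma NN.cmul {w : ℝ[X]} {p K : ℝ} (hK : 0 ≤ K) (hw : NN w p) : NN (C K * w) p := by
  intro i
  rw [iterate_derivative_C_mul, eval_mul, eval_C]
  exact mul_nonneg hK (hw i)

lemma NN.zero (p : ℝ) : NN (0 : ℝ[X]) p := by
  intro i
  rw [iterate_derivative_zero, eval_zero]

lemma NN.sum {ι : Type*} {s : Finset ι} {f : ι → ℝ[X]} {p : ℝ} (h : ∀ i ∈ s, NN (f i) p) :
    NN (∑ i ∈ s, f i) p := by
  classical
  induction s using Finset.induction_on with
  | empty => simpa using NN.zero p
  | insert a s ha ih =>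
    rw [Finset.sum_insert ha]
    exact (h a (Finset.mem_insert_self a s)).add
      (ih fun i hi => h i (Finset.mem_insert_of_mem hi))

lemma NN.sqmul {w : ℝ[X]} {b : ℝ} (h : NN w b) : NN ((X - C b) ^ 2 * w) b := by
  have e : (X - C b) ^ 2 * w = w * (X - C b) * (X - C b) := by ring
  rw [e]
  exact h.lin.lin

/-- the weights have nonnegative Taylor coefficients to the right of the nodes -/
lemma om_nn : ∀ (n : ℕ) (T : Finset ℝ), T.card = n → ∀ (l : ℕ) (a : ℤ), (l = 0 ∨ 1 ≤ a + l) →
    ∀ x : ℝ, (∀ b ∈ T, b ≤ x) → NN (om T l a) x := by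
  intro n
  induction n using Nat.strong_induction_on with
  | _ n ih =>
    intro T hT l a hla x hx
    rcases T.eq_empty_or_nonempty with rfl | hne
    · rw [om_empty]
      by_cases hl : l = 0
      · rw [if_pos hl, ← C_1]; exact nnC zero_le_one x
      · rw [if_neg hl]; exact NN.zero x
    · set c := T.max' hne with hc
      set B := T.erase c with hB
      have hcT : c ∈ T := T.max'_mem hne
      have hTi : T = insert c B := (Finset.insert_erase hcT).symm
      have h : ∀ b ∈ B, b < c := by
        intro b hb
        rw [hB, Finset.mem_erase] at hb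
        exact lt_of_le_of_ne (T.le_max' b hb.2) hb.1
      have hBc : B.card + 1 = n := by
        rw [hB, Finset.card_erase_of_mem hcT]
        have := Finset.card_pos.2 hne
        omega
      have hcx : c ≤ x := hx c hcT
      have IB : ∀ (l : ℕ) (a : ℤ), (l = 0 ∨ 1 ≤ a + l) → NN (om B l a) c := fun l a hla =>
        ih B.card (by omega) B rfl l a hla c (fun b hb => (h b hb).le)
      have IE : ∀ b ∈ B, ∀ (l : ℕ) (a : ℤ), (l = 0 ∨ 1 ≤ a + l) → NN (om (B.erase b) l a) c := by
        intro b hb l a hla
        refine ih (B.erase b).card ?_ _ rfl l a hla c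
          (fun b' hb' => (h b' (Finset.mem_of_mem_erase hb')).le)
        rw [Finset.card_erase_of_mem hb]; omega
      rw [hTi]
      clear_value c B
      refine NN.mono (p := c) ?_ hcx
      cases l with
      | zero =>
        rw [om_insert_zero h]
        exact (IB 0 a (Or.inl rfl)).sqmul
      | succ l =>
        have hal : 1 ≤ a + (l + 1 : ℕ) := by
          rcases hla with h0 | h0
          · omega
          · exact h0
        rw [om_insert_succ h]
        refine ((IB (l + 1) a (Or.inr hal)).sqmul).add (NN.add ?_ (NN.sum ?_))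
        · rcases (by push_cast at hal; omega : a + (l : ℤ) = 0 ∨ 1 ≤ a + (l : ℤ)) with h0 | h0
          · rw [h0]
            simpa using NN.zero c
          · refine (IB l a (Or.inr h0)).cmul ?_
            have : (0 : ℤ) ≤ a + l := by omega
            exact_mod_cast this
        · intro b hb
          refine (IE b hb l (a + 1) (Or.inr ?_)).cmul (sq_nonneg _)
          push_cast at hal
          omega

/-- the weight of `U^(j) V^(j)` after the nodes `B` have been split off -/
noncomputable def cw (k : ℕ) (B : Finset ℝ) (j : ℕ) : ℝ[X] :=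
  if j ≤ k then C ((k.descFactorial (k - j) : ℕ) : ℝ) * om B (k - j) ((k : ℤ) - B.card) else 0

lemma cw_nn {k : ℕ} {B : Finset ℝ} {j : ℕ} (hj : B.card + j + 1 ≤ 2 * k) {x : ℝ}
    (hx : ∀ b ∈ B, b ≤ x) : NN (cw k B j) x := by
  unfold cw
  by_cases hjk : j ≤ k
  · rw [if_pos hjk]
    refine NN.cmul (Nat.cast_nonneg _) (om_nn _ B rfl _ _ ?_ x hx)
    right
    have : ((k - j : ℕ) : ℤ) = k - j := by omega
    rw [this]; omega
  · rw [if_neg hjk]; exact NN.zero x

lemma cw_rec {k : ℕ} {B : Finset ℝ} {b : ℝ} (h : ∀ x ∈ B, x < b) (i : ℕ) :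
    cw k (insert b B) i = cw k B i * ((X - C b) * (X - C b)) +
      C ((i : ℝ) + 1) * (C (i : ℝ) * cw k B (i + 1) - derivative (cw k B (i + 1)) * (X - C b)) := by
  have hcard : ((insert b B).card : ℤ) = B.card + 1 := by
    rw [Finset.card_insert_of_notMem (fun hc => lt_irrefl b (h b hc))]; push_cast; ring
  unfold cw
  rcases Nat.lt_trichotomy i k with hik | hik | hik
  · rw [if_pos hik.le, if_pos hik.le, if_pos (by omega : i + 1 ≤ k)]
    obtain ⟨l, rfl⟩ : ∃ l, k = i + 1 + l := ⟨k - (i + 1), by omega⟩
    have e1 : i + 1 + l - i = l + 1 := by omega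
    have e2 : i + 1 + l - (i + 1) = l := by omega
    have e3 : ((i + 1 + l).descFactorial (l + 1) : ℝ) = ((i : ℝ) + 1) * ((i + 1 + l).descFactorial l : ℝ) := by
      rw [Nat.descFactorial_succ]
      have : i + 1 + l - l = i + 1 := by omega
      rw [this]; push_cast; ring
    have e4 : (((i + 1 + l : ℕ) : ℤ) - (insert b B).card) + 1 = ((i + 1 + l : ℕ) : ℤ) - B.card := by
      rw [hcard]; ring
    rw [e1, e2, e3, om_rec h, e4]
    have e5 : ((((i + 1 + l : ℕ) : ℤ) - (insert b B).card + B.card - l : ℤ) : ℝ) = (i : ℝ) := by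
      rw [hcard]; push_cast; ring
    rw [e5]
    simp only [derivative_mul, derivative_C, zero_mul, zero_add, map_mul]
    ring
  · subst hik
    rw [if_pos le_rfl, if_pos le_rfl, if_neg (by omega)]
    simp only [Nat.sub_self, Nat.descFactorial_zero, Nat.cast_one, map_one, one_mul]
    rw [om_insert_zero h, om_zero_indep B ((i : ℤ) - (insert b B).card) ((i : ℤ) - B.card)]
    simp
    ring
  · rw [if_neg (by omega), if_neg (by omega), if_neg (by omega)]
    simp

/-- cutting off the part to the left of the smallest node (inequality) -/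
lemma cut_left' {m : ℕ} {S : Finset ℝ} {U V : ℝ → ℝ} (h : Pair m S U V) {j : ℕ} (hj : j ≤ m)
    (w : ℝ[X]) {p q b : ℝ} (hp : -1 ≤ p) (hpb : p ≤ b) (hb1 : b ≤ 1)
    (hbS : ∀ z ∈ S, b ≤ z) (hw : NN w p) :
    ∫ x in b..q, w.eval x * PP j U V x ≤ ∫ x in p..q, w.eval x * PP j U V x := by
  have cP := h.cont hj
  have cw : Continuous fun x => w.eval x := w.continuous
  have cc : Continuous fun x => w.eval x * PP j U V x := cw.mul cP
  rw [← intervalIntegral.integral_add_adjacent_intervals (cc.intervalIntegrable p b)
      (cc.intervalIntegrable b q)]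
  have : 0 ≤ ∫ x in p..b, w.eval x * PP j U V x := by
    apply intervalIntegral.integral_nonneg hpb
    intro x hx
    apply mul_nonneg
    · simpa using (hw.mono hx.1) 0
    · exact h.left hj ⟨by linarith [hx.1], by linarith [hx.2]⟩ (fun z hz => hx.2.trans (hbS z hz))
  linarith

/-- the chain -/
lemma chain (k : ℕ) : ∀ (m : ℕ) (B S : Finset ℝ) (p q : ℝ) (U V : ℝ → ℝ),
    -1 ≤ p → p ≤ q → q ≤ 1 → Pair m S U V → (∀ z ∈ S, z ∈ Set.Icc p q) →
    (∀ b ∈ B, b ≤ p) → (∀ b ∈ B, ∀ z ∈ S, b < z) → B.card + m + 1 ≤ 2 * k + 1 →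
    0 ≤ ∑ j ∈ Finset.range m, ∫ x in p..q, (cw k B j).eval x * PP j U V x := by
  intro m
  induction m with
  | zero => intro B S p q U V _ _ _ _ _ _ _ _; simp
  | succ m ih =>
    intro B S p q U V hp hpq hq h hS hB hBS hcard
    have hne : S.Nonempty := Finset.card_pos.1 (by rw [h.card]; omega)
    set b := S.min' hne with hbdef
    have hb : b ∈ S := S.min'_mem hne
    have hbm : ∀ z ∈ S, b ≤ z := fun z hz => S.min'_le z hz
    have hpb : p ≤ b := (hS b hb).1
    have hbq : b ≤ q := (hS b hb).2
    have hBb : ∀ x ∈ B, x < b := fun x hx => hBS x hx b hb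
    have nnp : ∀ j ≤ m, NN (cw k B j) p := fun j hj => cw_nn (by omega) hB
    have cut : ∑ j ∈ Finset.range (m + 1), ∫ x in b..q, (cw k B j).eval x * PP j U V x ≤
        ∑ j ∈ Finset.range (m + 1), ∫ x in p..q, (cw k B j).eval x * PP j U V x := by
      apply Finset.sum_le_sum
      intro j hj
      have hj' : j ≤ m := by have := Finset.mem_range.1 hj; omega
      exact cut_left' h (by omega) _ hp hpb (by linarith) hbm (nnp j hj')
    refine le_trans ?_ cut
    obtain ⟨R, T, h', eR, eT⟩ := h.strip hb
    have hS' : ∀ z ∈ S.erase b, z ∈ Set.Icc b q := fun z hz =>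
      ⟨hbm z (Finset.mem_of_mem_erase hz), (hS z (Finset.mem_of_mem_erase hz)).2⟩
    -- the induction hypothesis
    have IH := ih (insert b B) (S.erase b) b q R T (by linarith) hbq hq h' hS'
      (by
        intro x hx
        rcases Finset.mem_insert.1 hx with h1 | h1
        · exact h1.le
        · exact (hBb x h1).le)
      (by
        intro x hx z hz
        rcases Finset.mem_insert.1 hx with h1 | h1
        · rw [h1]
          exact lt_of_le_of_ne (hS' z hz).1 (Ne.symm (Finset.ne_of_mem_erase hz))
        · exact hBS x h1 z (Finset.mem_of_mem_erase hz))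
      (by
        rw [Finset.card_insert_of_notMem (fun hc => lt_irrefl b (hBb b hc))]
        omega)
    -- the leading term
    have L := delta1' h' (cw k B m * ((X - C b) * (X - C b))) (by linarith) hbq hq hS'
      (by rw [← mul_assoc]; exact (((nnp m le_rfl).mono hpb).lin).lin)
    -- the `j = 0` term
    have z0 : ∫ x in b..q, (cw k B 0).eval x * PP 0 U V x =
        ∫ x in b..q, (cw k B 0 * ((X - C b) * (X - C b))).eval x * PP 0 R T x := by
      apply intervalIntegral.integral_congr
      intro x _
      simp only [PP, iteratedDeriv_zero, eval_mul, eval_sub, eval_X, eval_C]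
      rw [eR, eT]
      ring
    -- the terms `j = i + 1`
    have zs : ∀ i ∈ Finset.range m, ∫ x in b..q, (cw k B (i + 1)).eval x * PP (i + 1) U V x =
        (∫ x in b..q, (cw k B (i + 1) * ((X - C b) * (X - C b))).eval x * PP (i + 1) R T x) +
        (((i : ℝ) + 1) * (∫ x in b..q, (C (i : ℝ) * cw k B (i + 1)
          - derivative (cw k B (i + 1)) * (X - C b)).eval x * PP i R T x) +
        ((i : ℝ) + 1) * ((cw k B (i + 1)).eval q * ((q - b) * PP i R T q))) := by
      intro i hi
      have hi' := Finset.mem_range.1 hi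
      rw [h.step h' eR eT (j := i) (by omega) (cw k B (i + 1)) b q]
      ring
    have bd : 0 ≤ ∑ i ∈ Finset.range m,
        ((i : ℝ) + 1) * ((cw k B (i + 1)).eval q * ((q - b) * PP i R T q)) := by
      apply Finset.sum_nonneg
      intro i hi
      have hi' := Finset.mem_range.1 hi
      apply mul_nonneg (by positivity)
      apply mul_nonneg (by simpa using ((nnp (i + 1) (by omega)).mono hpq) 0)
      apply mul_nonneg (by linarith)
      exact h'.right (by omega) ⟨by linarith, hq⟩ (fun z hz => (hS' z hz).2)
    have split : ∑ i ∈ Finset.range m, ∫ x in b..q, (cw k (insert b B) i).eval x * PP i R T x =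
        (∑ i ∈ Finset.range m,
          ∫ x in b..q, (cw k B i * ((X - C b) * (X - C b))).eval x * PP i R T x) +
        ∑ i ∈ Finset.range m, ((i : ℝ) + 1) * (∫ x in b..q, (C (i : ℝ) * cw k B (i + 1)
          - derivative (cw k B (i + 1)) * (X - C b)).eval x * PP i R T x) := by
      rw [← Finset.sum_add_distrib]
      apply Finset.sum_congr rfl
      intro i hi
      have hi' := Finset.mem_range.1 hi
      have cP := h'.cont (j := i) (by omega)
      have c1 : Continuous fun x => (cw k B i * ((X - C b) * (X - C b))).eval x * PP i R T x :=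
        (Polynomial.continuous _).mul cP
      have c2 : Continuous fun x => ((i : ℝ) + 1) * ((C (i : ℝ) * cw k B (i + 1)
          - derivative (cw k B (i + 1)) * (X - C b)).eval x * PP i R T x) :=
        continuous_const.mul ((Polynomial.continuous _).mul cP)
      rw [← intervalIntegral.integral_const_mul, ← intervalIntegral.integral_add
        (c1.intervalIntegrable _ _) (c2.intervalIntegrable _ _)]
      apply intervalIntegral.integral_congr
      intro x _
      simp only
      rw [cw_rec hBb i, eval_add, eval_mul (p := C ((i : ℝ) + 1)), eval_C]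
      ring
    have tot : ∑ j ∈ Finset.range (m + 1), ∫ x in b..q, (cw k B j).eval x * PP j U V x =
        (∑ i ∈ Finset.range m, ∫ x in b..q, (cw k (insert b B) i).eval x * PP i R T x) +
        (∫ x in b..q, (cw k B m * ((X - C b) * (X - C b))).eval x * PP m R T x) +
        ∑ i ∈ Finset.range m,
          ((i : ℝ) + 1) * ((cw k B (i + 1)).eval q * ((q - b) * PP i R T q)) := by
      rw [Finset.sum_range_succ', Finset.sum_congr rfl zs, z0, Finset.sum_add_distrib,
        Finset.sum_add_distrib, split]
      have e : (∑ i ∈ Finset.range m,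
          ∫ x in b..q, (cw k B (i + 1) * ((X - C b) * (X - C b))).eval x * PP (i + 1) R T x) +
          ∫ x in b..q, (cw k B 0 * ((X - C b) * (X - C b))).eval x * PP 0 R T x =
          (∑ i ∈ Finset.range m,
            ∫ x in b..q, (cw k B i * ((X - C b) * (X - C b))).eval x * PP i R T x) +
          ∫ x in b..q, (cw k B m * ((X - C b) * (X - C b))).eval x * PP m R T x := by
        have f1 := Finset.sum_range_succ' (fun i =>
          ∫ x in b..q, (cw k B i * ((X - C b) * (X - C b))).eval x * PP i R T x) m
        have f2 := Finset.sum_range_succ (fun i =>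
          ∫ x in b..q, (cw k B i * ((X - C b) * (X - C b))).eval x * PP i R T x) m
        exact f1.symm.trans f2
      linarith
    rw [tot]
    linarith

/-- **positivity in the upper half** -/
theorem upper (n k : ℕ) (hn : 2 ≤ n) (hk2 : k ≤ n - 1) (hcase : n ≤ 2 * k + 1)
    (S : Finset ℝ) (U V : ℝ → ℝ) (h : Pair (n - 1) S U V) :
    0 ≤ ∫ x in (-1 : ℝ)..1, PP k U V x := by
  have hS : ∀ z ∈ S, z ∈ Set.Icc (-1 : ℝ) 1 := h.sub
  rcases hk2.eq_or_lt with h1 | h1
  · subst h1
    have e1 : ∫ x in (-1 : ℝ)..1, PP (n - 1) U V x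
      = ∫ x in (-1 : ℝ)..1, (C (1 : ℝ)).eval x * PP (n - 1) U V x := by simp
    rw [e1]
    exact delta1' h (C 1) le_rfl (by norm_num) le_rfl hS (nnC zero_le_one _)
  · have key := chain k (n - 1) ∅ S (-1) 1 U V le_rfl (by norm_num) le_rfl h hS
      (by simp) (by simp) (by simp only [Finset.card_empty]; omega)
    rw [Finset.sum_eq_single_of_mem k (Finset.mem_range.2 h1)] at key
    · have e : cw k ∅ k = 1 := by
        unfold cw
        rw [if_pos le_rfl, Nat.sub_self, om_empty]
        simp
      rw [e] at key
      simpa using key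
    · intro j _ hj
      have e : cw k ∅ j = 0 := by
        unfold cw
        by_cases hjk : j ≤ k
        · rw [if_pos hjk, om_empty, if_neg (by omega), mul_zero]
        · rw [if_neg hjk]
      rw [e]; simp

end Pool.H72.NP
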